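import Pool.Agent.TH678.RS.Defs
import Pool.Agent.NPC.Num

/-! The machine that looks for a string -/

set_option autoImplicit false

namespace Pool.Agent.TH678.RS

open Pool.Agent.NPC Pool.Agent.H620R2.Gauge Pool.Agent.TH678.RW

/-- the strings of length `n` -/
def allS : ℕ → List (List Bool)
  | 0 => [[]]
  | n + 1 => (allS n).map (fun u => true :: u) ++ (allS n).map (fun u => false :: u)

theorem mem_allS : ∀ (n : ℕ) (u : List Bool), u ∈ allS n ↔ u.length = n
  | 0, u => by simp [allS]
  | n + 1, u => by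
    unfold allS
    rw [List.mem_append, List.mem_map, List.mem_map]
    constructor
    · rintro (⟨v, h1, rfl⟩ | ⟨v, h1, rfl⟩)
      · simpa using (mem_allS n v).1 h1
      · simpa using (mem_allS n v).1 h1
    · intro h
      cases u with
      | nil => simp at h
      | cons a v =>
        have hv : v ∈ allS n := (mem_allS n v).2 (by simpa using h)
        cases a with
        | true => exact Or.inl ⟨v, hv, rfl⟩
        | false => exact Or.inr ⟨v, hv, rfl⟩

theorem length_allS : ∀ n : ℕ, (allS n).length = 2 ^ n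
  | 0 => rfl
  | n + 1 => by
    unfold allS
    rw [List.length_append, List.length_map, List.length_map, length_allS n, pow_succ]
    ring

/-- the hidden string -/
def pl (m : ℕ) (w : List Bool) : List Bool :=
  false :: (List.replicate (2 ^ m) true ++ false :: w)

theorem length_pl (m : ℕ) (w : List Bool) : (pl m w).length = 2 ^ m + 2 + w.length := by
  unfold pl
  simp only [List.length_cons, List.length_append, List.length_replicate]
  omega

theorem pl_inj {m : ℕ} {w w' : List Bool} (h : pl m w = pl m w') : w = w' := by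
  unfold pl at h
  simpa using h

/-- some string is there -/
def HitP (A : Oracle) (m κ : ℕ) : Prop :=
  ∃ w : List Bool, w.length = κ * (m + 1) ∧ A (pl m w) = true

/-- the first transition -/
def r₀ (m : ℕ) : Rule := (0, 0, 2, 2, 0, 2, pl m [], false)

/-- the guesses -/
def gr (κ s : ℕ) (u : List Bool) : Rule :=
  (s + 2, 0, if s + 1 = κ then 1 else s + 3, if s + 1 = κ then κ + 2 else s + 3, 0, 2, u,
    decide (s + 1 = κ))

/-- the machine -/
def mach (m κ : ℕ) : List Rule :=
  r₀ m :: (List.range κ).flatMap (fun s => (allS (m + 1)).map (gr κ s))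

/-- the instance -/
def XX (m κ : ℕ) : List Bool := bits (mach m κ)

theorem mem_mach {m κ : ℕ} {ρ : Rule} : ρ ∈ mach m κ ↔ ρ = r₀ m ∨
    ∃ s < κ, ∃ u : List Bool, u.length = m + 1 ∧ ρ = gr κ s u := by
  unfold mach
  rw [List.mem_cons, List.mem_flatMap]
  refine or_congr_right (exists_congr fun s => ?_)
  rw [List.mem_range, List.mem_map]
  refine and_congr_right fun _ => exists_congr fun u => ?_
  rw [mem_allS]
  exact and_congr_right fun _ => eq_comm

theorem halts_stage (A : Oracle) (m κ : ℕ) : ∀ (j s : ℕ), s < κ → κ - s = j →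
    ∀ (l r : List ℕ) (o : List Bool), r.head?.getD 0 = 0 →
    (HaltsIn A (mach m κ) j (s + 2, l, r, o) ↔
      ∃ w : List Bool, w.length = j * (m + 1) ∧ A (o ++ w) = true) := by
  intro j
  induction j with
  | zero =>
    intro s hs hj
    omega
  | succ j ih =>
    intro s hs hj l r o hr
    have h0 : HaltsIn A (mach m κ) (j + 1) (s + 2, l, r, o) ↔
        ∃ u : List Bool, u.length = m + 1 ∧
          HaltsIn A (mach m κ) j (step A (s + 2, l, r, o) (gr κ s u)) := by
      show ((s + 2, l, r, o) : Cfg).1 = 1 ∨ (∃ ρ ∈ mach m κ, _) ↔ _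
      constructor
      · rintro (h | ⟨ρ, h1, h2, h3⟩)
        · simp at h
        · rcases mem_mach.1 h1 with rfl | ⟨s', hs', u, hu, rfl⟩
          · have := h2.1
            simp [r₀] at this
          · have h4 : s + 2 = s' + 2 := h2.1
            have : s' = s := by omega
            subst this
            exact ⟨u, hu, h3⟩
      · rintro ⟨u, hu, h⟩
        exact Or.inr ⟨gr κ s u, mem_mach.2 (Or.inr ⟨s, hs, u, hu, rfl⟩), ⟨rfl, hr⟩, h⟩
    rw [h0]
    by_cases hk : s + 1 = κ
    · have hj0 : j = 0 := by omega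
      subst hj0
      constructor
      · rintro ⟨u, hu, h⟩
        refine ⟨u, by omega, ?_⟩
        by_contra hA
        have hA' : A (o ++ u) = false := by simpa using hA
        have h1 : (step A (s + 2, l, r, o) (gr κ s u)).1 = 1 := h
        simp [step, nxt, gr, hk, hA'] at h1
        have h2 : κ + 2 = 1 := h1
        omega
      · rintro ⟨w, hw, h⟩
        refine ⟨w, by omega, ?_⟩
        show (step A (s + 2, l, r, o) (gr κ s w)).1 = 1
        simp [step, nxt, gr, hk, h]
    · have h1 : ∀ u : List Bool, step A (s + 2, l, r, o) (gr κ s u) =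
          ((s + 1) + 2, l, 0 :: r.tail, o ++ u) := by
        intro u
        simp [step, nxt, gr, hk]
      have hs2 : s + 1 < κ := by omega
      have hj2 : κ - (s + 1) = j := by rw [Nat.sub_add_eq, hj, Nat.add_sub_cancel]
      constructor
      · rintro ⟨u, hu, h⟩
        rw [h1 u] at h
        obtain ⟨w, hw, h2⟩ := (ih (s + 1) hs2 hj2 l (0 :: r.tail) (o ++ u) rfl).1 h
        refine ⟨u ++ w, ?_, ?_⟩
        · rw [List.length_append, hu, hw]
          ring
        · rwa [← List.append_assoc]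
      · rintro ⟨w, hw, h⟩
        have hw1 : m + 1 ≤ w.length := by
          rw [hw]
          exact Nat.le_mul_of_pos_left _ (by omega)
        refine ⟨w.take (m + 1), by rw [List.length_take]; omega, ?_⟩
        rw [h1]
        refine (ih (s + 1) hs2 hj2 l (0 :: r.tail) _ rfl).2
          ⟨w.drop (m + 1), ?_, ?_⟩
        · rw [List.length_drop, hw, Nat.add_mul, one_mul, Nat.add_sub_cancel]
        · rwa [List.append_assoc, List.take_append_drop]

theorem kHalt_iff (A : Oracle) {m κ : ℕ} (hκ : 0 < κ) :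
    (XX m κ, κ + 1) ∈ kHalt A ↔ HitP A m κ := by
  have h0 : (XX m κ, κ + 1) ∈ kHalt A ↔ HaltsIn A (mach m κ) (κ + 1) (0, [], [], []) := by
    constructor
    · rintro ⟨M, h1, h2⟩
      have h3 : mach m κ = M := bits_injective h1
      rw [h3]
      exact h2
    · intro h
      exact ⟨mach m κ, rfl, h⟩
  rw [h0]
  have h1 : HaltsIn A (mach m κ) (κ + 1) (0, [], [], []) ↔
      HaltsIn A (mach m κ) κ (0 + 2, [], [0], pl m []) := by
    have hstep : step A (0, [], [], []) (r₀ m) = (0 + 2, [], [0], pl m []) := by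
      simp [step, nxt, r₀]
    show ((0, [], [], []) : Cfg).1 = 1 ∨ (∃ ρ ∈ mach m κ, _) ↔ _
    constructor
    · rintro (h | ⟨ρ, h1, h2, h3⟩)
      · simp at h
      · rcases mem_mach.1 h1 with rfl | ⟨s, hs, u, hu, rfl⟩
        · rwa [hstep] at h3
        · have h4 : 0 = s + 2 := h2.1
          omega
    · intro h
      refine Or.inr ⟨r₀ m, mem_mach.2 (Or.inl rfl), ⟨rfl, rfl⟩, ?_⟩
      rwa [hstep]
  rw [h1, halts_stage A m κ κ 0 hκ (Nat.sub_zero κ) [] [0] (pl m []) rfl]
  unfold HitP
  refine exists_congr fun w => and_congr_right fun _ => ?_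
  have : pl m [] ++ w = pl m w := by
    unfold pl
    simp
  rw [this]

theorem sz_nat_le' (n : ℕ) : sz n ≤ 4 * n + 1 := by
  have h1 := sz_nat_le n
  have h2 : n.size ≤ n := Nat.size_le.2 Nat.lt_two_pow_self
  omega

theorem length_XX (m κ : ℕ) : (XX m κ).length ≤ 120 * (κ + 2) ^ 2 * ((m + 1) * 2 ^ m) := by
  have h1 : ∀ ρ ∈ (List.range κ).flatMap (fun s => (allS (m + 1)).map (gr κ s)),
      sz ρ ≤ 30 * (κ + 2) * (m + 1) := by
    intro ρ hρ
    obtain ⟨s, hs, hρ⟩ := List.mem_flatMap.1 hρ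
    obtain ⟨u, hu, rfl⟩ := List.mem_map.1 hρ
    have hs' := List.mem_range.1 hs
    have hu' := (mem_allS _ _).1 hu
    unfold gr
    simp only [sz_pair]
    have e1 := sz_nat_le' (s + 2)
    have e2 : sz (if s + 1 = κ then 1 else s + 3) ≤ 4 * (κ + 2) + 1 := by
      refine (sz_nat_le' _).trans ?_
      split_ifs <;> omega
    have e3 : sz (if s + 1 = κ then κ + 2 else s + 3) ≤ 4 * (κ + 2) + 1 := by
      refine (sz_nat_le' _).trans ?_
      split_ifs <;> omega
    have e4 : sz (0 : ℕ) ≤ 1 := sz_nat_le' 0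
    have e5 : sz (2 : ℕ) ≤ 9 := sz_nat_le' 2
    have e6 := sz_listBool_le u
    have e7 := sz_bool_le (decide (s + 1 = κ))
    rw [hu'] at e6
    have e8 : 3 * (m + 1) ≤ (κ + 2) * (m + 1) := Nat.mul_le_mul_right _ (by omega)
    have e9 : κ + 2 ≤ (κ + 2) * (m + 1) := Nat.le_mul_of_pos_right _ (by omega)
    have e10 : 30 * (κ + 2) * (m + 1) = 30 * ((κ + 2) * (m + 1)) := by ring
    rw [e10]
    omega
  have h2 := sz_le_length_mul _ _ h1
  have h3 : ((List.range κ).flatMap (fun s => (allS (m + 1)).map (gr κ s))).length =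
      κ * 2 ^ (m + 1) := by
    rw [List.length_flatMap]
    simp [length_allS]
  rw [h3] at h2
  have h4 : sz (r₀ m) ≤ 4 * 2 ^ m + 50 := by
    unfold r₀
    simp only [sz_pair]
    have e1 := sz_listBool_le (pl m [])
    rw [length_pl, List.length_nil] at e1
    have e2 : sz (0 : ℕ) ≤ 1 := sz_nat_le' 0
    have e3 : sz (2 : ℕ) ≤ 9 := sz_nat_le' 2
    have e4 := sz_bool_le false
    omega
  have h5 : (XX m κ).length = sz (mach m κ) := bits_length _
  rw [h5]
  unfold mach
  rw [sz_list_cons]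
  have h6 : 1 ≤ 2 ^ m := Nat.one_le_two_pow
  have h7 : 1 ≤ (m + 1) * 2 ^ m := Nat.mul_pos (by omega) (by omega)
  have h8 : κ * 2 ^ (m + 1) * (30 * (κ + 2) * (m + 1) + 1) ≤
      62 * (κ + 2) ^ 2 * ((m + 1) * 2 ^ m) := by
    calc κ * 2 ^ (m + 1) * (30 * (κ + 2) * (m + 1) + 1)
        ≤ (κ + 2) * 2 ^ (m + 1) * (31 * (κ + 2) * (m + 1)) := by
          apply Nat.mul_le_mul
          · exact Nat.mul_le_mul_right _ (by omega)
          · nlinarith
      _ = 62 * (κ + 2) ^ 2 * ((m + 1) * 2 ^ m) := by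
          rw [pow_succ]
          ring
  have h9 : 4 * 2 ^ m + 52 ≤ 56 * ((m + 1) * 2 ^ m) := by nlinarith
  have h10 : 56 * ((m + 1) * 2 ^ m) ≤ 56 * (κ + 2) ^ 2 * ((m + 1) * 2 ^ m) := by
    have : 1 ≤ (κ + 2) ^ 2 := Nat.one_le_pow _ _ (by omega)
    nlinarith
  have h11 : 120 * (κ + 2) ^ 2 * ((m + 1) * 2 ^ m) = 62 * (κ + 2) ^ 2 * ((m + 1) * 2 ^ m) +
      58 * (κ + 2) ^ 2 * ((m + 1) * 2 ^ m) := by ring
  have h12 : 58 * (κ + 2) ^ 2 * ((m + 1) * 2 ^ m) = 56 * (κ + 2) ^ 2 * ((m + 1) * 2 ^ m) +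
      2 * (κ + 2) ^ 2 * ((m + 1) * 2 ^ m) := by ring
  have h13 : 1 ≤ 2 * (κ + 2) ^ 2 * ((m + 1) * 2 ^ m) := by
    have : 1 ≤ 2 * (κ + 2) ^ 2 := by
      have : 1 ≤ (κ + 2) ^ 2 := Nat.one_le_pow _ _ (by omega)
      omega
    exact Nat.mul_pos (by omega) (by omega)
  omega

end Pool.Agent.TH678.RS
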