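import Pool.Agent.TH678.RS.Code
import Pool.Agent.TH678.RS.Inst
import Pool.Agent.TH678.EL.Run
import Pool.Agent.H622R2.Exp.YAux

/-! The hidden strings -/

set_option autoImplicit false

namespace Pool.Agent.TH678.RS

open Pool.Agent.NPC Pool.Agent.H622R2 Pool.Agent.H620R2.Gauge Pool.Agent.H622R2.Exp
  Pool.Agent.TH678.ETH Pool.Agent.TH678.SETH Pool.Agent.TH678.RW Pool.Agent.TH678.WP Filter
open Pool.Agent.TH678.EL (qset qset_card run_agree)

/-- a positive answer is read from at most `T` strings of length at most `T` -/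
def Fw (T : ℕ) (No : Oracle → Prop) : Prop := ∀ A : Oracle, No A → ∃ Q : Finset (List Bool),
  Q.card ≤ T ∧ (∀ q ∈ Q, q.length ≤ T) ∧
    ∀ A' : Oracle, (∀ q ∈ Q, A' q = A q) → No A'

variable {g : ℕ → Alg} {S : ℕ → Polynomial ℕ} {b : ℕ → ℕ} {Φ : Oracle → Oracle}

theorem hit_iff (hc : Cd g S b Φ) (B : Oracle) (m κ : ℕ) : HitP (Φ B) m κ ↔ HitP B m κ := by
  unfold HitP
  refine exists_congr fun w => and_congr_right fun _ => ?_
  rw [pl, off_false hc B]

theorem exists_pl {m n : ℕ} {Q : Finset (List Bool)} (h : Q.card < 2 ^ n) :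
    ∃ w : List Bool, w.length = n ∧ pl m w ∉ Q := by
  by_contra hcon
  push Not at hcon
  have h1 := Finset.card_le_card_of_injOn (s := (Finset.univ : Finset (Fin n → Bool))) (t := Q)
    (fun f => pl m (List.ofFn f)) (fun f _ => hcon _ List.length_ofFn)
    (fun f _ f' _ h => List.ofFn_injective (pl_inj h))
  rw [Finset.card_univ, Fintype.card_fun, Fintype.card_bool, Fintype.card_fin] at h1
  omega

/-- **One error.** -/
theorem escape (hc : Cd g S b Φ) {m κ T : ℕ} {No : Oracle → Prop} (hN : Fw T No)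
    (h1 : T < 2 ^ (κ * (m + 1))) (h2 : ∀ s, 2 ^ m ≤ s → T < s ^ (b s + 1)) (B₀ : Oracle) :
    ∃ B : Oracle, (∀ u : List Bool, u.length < 2 ^ m → B u = B₀ u) ∧
      ¬ (No (Φ B) ↔ ¬ HitP (Φ B) m κ) := by
  set B₁ : Oracle := fun u => if u.length < 2 ^ m then B₀ u else false with hB₁
  have e1 : ∀ u : List Bool, u.length < 2 ^ m → B₁ u = B₀ u := fun u hu => by
    rw [hB₁]
    exact if_pos hu
  have hno : ¬ HitP (Φ B₁) m κ := by
    rw [hit_iff hc]
    rintro ⟨w, _, hw⟩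
    rw [hB₁] at hw
    have h3 : ¬ (pl m w).length < 2 ^ m := by
      rw [length_pl]
      omega
    simp only [if_neg h3] at hw
    exact Bool.false_ne_true hw
  by_cases hNo : No (Φ B₁)
  · obtain ⟨Q, hQ1, hQ2, hQ3⟩ := hN (Φ B₁) hNo
    obtain ⟨w, hw, hwQ⟩ := exists_pl (m := m) (n := κ * (m + 1)) (Q := Q) (by omega)
    set B₂ : Oracle := Function.update B₁ (pl m w) true with hB₂
    have e2 : ∀ u : List Bool, u.length < 2 ^ m → B₂ u = B₁ u := fun u hu => by
      rw [hB₂, Function.update_of_ne]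
      rintro rfl
      rw [length_pl] at hu
      omega
    have hhit : HitP (Φ B₂) m κ := by
      rw [hit_iff hc]
      exact ⟨w, hw, by rw [hB₂, Function.update_self]⟩
    have hsame : ∀ q ∈ Q, Φ B₂ q = Φ B₁ q := by
      intro q hq
      by_cases hp : ∃ p : IB S b, q = cB S b p
      · exact blind hc h2 e2 _ q le_rfl (hQ2 q hq) (Or.inl hp)
      · push Not at hp
        rw [hc.off B₂ q hp, hc.off B₁ q hp, hB₂, Function.update_of_ne]
        rintro rfl
        exact hwQ hq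
    exact ⟨B₂, fun u hu => (e2 u hu).trans (e1 u hu), fun h => h.1 (hQ3 (Φ B₂) hsame) hhit⟩
  · exact ⟨B₁, e1, fun h => hNo (h.2 hno)⟩

theorem isOpen_of_loc {P : Set Oracle} (ℓ : ℕ) (h : ∀ B B' : Oracle,
    (∀ u : List Bool, u.length ≤ ℓ → B u = B' u) → B ∈ P → B' ∈ P) : IsOpen P := by
  rw [isOpen_iff_forall_mem_open]
  intro B hB
  obtain ⟨W, _, hW⟩ := exists_short ℓ
  refine ⟨Set.pi (W : Set (List Bool)) (fun z => {B z}), fun B' hB' => ?_,
    isOpen_set_pi W.finite_toSet (fun _ _ => isOpen_discrete _), fun z _ => rfl⟩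
  exact h B B' (fun u hu => (hB' u (hW u hu)).symm) hB

/-- **Infinitely many requirements.** -/
theorem exists_generic (hc : Cd g S b Φ) {J : Type} [Countable J] (κ : J → ℕ)
    (No : J → ℕ → Oracle → Prop) (T : J → ℕ → ℕ) (hF : ∀ j m, Fw (T j m) (No j m))
    (hev : ∀ j n, ∃ m, n ≤ m ∧ T j m < 2 ^ (κ j * (m + 1)) ∧
      ∀ s, 2 ^ m ≤ s → T j m < s ^ (b s + 1)) :
    ∃ B : Oracle, ∀ j, ∃ m, ¬ (No j m (Φ B) ↔ ¬ HitP (Φ B) m (κ j)) := by
  set G : J → Set Oracle := fun j => {B | ∃ m, ¬ (No j m (Φ B) ↔ ¬ HitP (Φ B) m (κ j))} with hG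
  have hopen : ∀ j, IsOpen (G j) := by
    intro j
    have e : G j = ⋃ m, {B | ¬ (No j m (Φ B) ↔ ¬ HitP (Φ B) m (κ j))} := by
      ext B
      simp [hG]
    rw [e]
    refine isOpen_iUnion fun m => isOpen_of_loc
      (max (T j m) (2 ^ m + 2 + κ j * (m + 1))) fun B B' hB h => ?_
    have h1 : HitP (Φ B) m (κ j) ↔ HitP (Φ B') m (κ j) := by
      unfold HitP
      refine exists_congr fun w => and_congr_right fun hw => ?_
      rw [phi_loc hc hB (pl m w) (by rw [length_pl, hw]; exact le_max_right _ _)]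
    have h2 : ∀ B B' : Oracle, (∀ u : List Bool,
        u.length ≤ max (T j m) (2 ^ m + 2 + κ j * (m + 1)) → B u = B' u) →
        No j m (Φ B) → No j m (Φ B') := by
      intro B B' hB hNo
      obtain ⟨Q, _, hQ2, hQ3⟩ := hF j m (Φ B) hNo
      refine hQ3 _ fun q hq => ?_
      exact (phi_loc hc hB q ((hQ2 q hq).trans (le_max_left _ _))).symm
    have h3 : No j m (Φ B) ↔ No j m (Φ B') :=
      ⟨h2 B B' hB, h2 B' B fun u hu => (hB u hu).symm⟩
    rw [Set.mem_ofPred_eq] at h ⊢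
    rwa [← h1, ← h3]
  have hdense : ∀ j, Dense (G j) := by
    intro j
    rw [dense_iff_inter_open]
    rintro U hU ⟨B₀, hB₀⟩
    obtain ⟨I, u, hu1, hu2⟩ := isOpen_pi_iff.1 hU B₀ hB₀
    obtain ⟨m, hm, h1, h2⟩ := hev j (I.sup List.length)
    obtain ⟨B, hB1, hB2⟩ := escape hc (hF j m) h1 h2 B₀
    refine ⟨B, hu2 fun z hz => ?_, m, hB2⟩
    have h3 : z.length ≤ I.sup List.length := Finset.le_sup (f := List.length) hz
    have h4 : m < 2 ^ m := Nat.lt_two_pow_self
    rw [hB1 z (by omega)]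
    exact (hu1 z hz).2
  obtain ⟨B, hB⟩ := (dense_iInter_of_isOpen hopen hdense).nonempty
  exact ⟨B, fun j => Set.mem_iInter.1 hB j⟩

theorem acc_loc (M : Alg) (T : ℕ) (z : List Bool) (A : Oracle) : ∃ Q : Finset (List Bool),
    Q.card ≤ T ∧ (∀ q ∈ Q, q.length ≤ T) ∧
      ∀ A' : Oracle, (∀ q ∈ Q, A' q = A q) → (AccIn M T A' z ↔ AccIn M T A z) := by
  refine ⟨(qset M (upTo T A) z T []).filter (fun q => q.length ≤ T), ?_, ?_, ?_⟩
  · exact (Finset.card_filter_le _ _).trans (qset_card M _ z T [])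
  · intro q hq
    exact (Finset.mem_filter.1 hq).2
  · intro A' hA'
    have h1 : M.run (upTo T A') z T [] = M.run (upTo T A) z T [] := by
      apply run_agree
      intro q hq
      unfold upTo
      by_cases hl : q.length ≤ T
      · rw [hA' q (Finset.mem_filter.2 ⟨hq, hl⟩)]
      · simp [hl]
    show M.run (upTo T A') z T [] = some [true] ↔ M.run (upTo T A) z T [] = some [true]
    rw [h1]

theorem fw_acc (M : Alg) (T : ℕ) (z : List Bool) : Fw T (fun A => ¬ AccIn M T A z) := by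
  intro A hA
  obtain ⟨Q, h1, h2, h3⟩ := acc_loc M T z A
  exact ⟨Q, h1, h2, fun A' hA' h => hA ((h3 A' hA').1 h)⟩

theorem fw_nacc (M : Alg) (T : ℕ) (z : List Bool) :
    Fw T (fun A => ∃ w : List Bool, w.length ≤ T ∧ AccIn M T A (pairBits w z)) := by
  rintro A ⟨w, hw, hA⟩
  obtain ⟨Q, h1, h2, h3⟩ := acc_loc M T (pairBits w z) A
  exact ⟨Q, h1, h2, fun A' hA' => ⟨w, hw, (h3 A' hA').2 hA⟩⟩

theorem fw_out (M : Alg) (p : Polynomial ℕ) : ∃ D : ℕ, ∀ z : List Bool,
    Fw ((z.length + 2) ^ D) (fun A => ¬ M.out A z = some [true]) ∧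
    Fw ((z.length + 2) ^ D) (fun A => ∃ w : List Bool, w.length ≤ p.eval z.length ∧
      M.out A (pairBits w z) = some [true]) := by
  obtain ⟨qb, hqb⟩ := M.out_local
  obtain ⟨D, _, hD⟩ := YAux.poly_bound ((M.p + qb).comp (2 * p + 1 + Polynomial.X))
  refine ⟨D, fun z => ?_⟩
  have h4 := hD z.length
  simp only [Polynomial.eval_comp, Polynomial.eval_add, Polynomial.eval_mul,
    Polynomial.eval_ofNat, Polynomial.eval_one, Polynomial.eval_X] at h4
  have h5 : ∀ x : List Bool, x.length ≤ 2 * p.eval z.length + 1 + z.length →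
      M.p.eval x.length + qb.eval x.length ≤ (z.length + 2) ^ D := by
    intro x hx
    have h6 := eval_mono M.p hx
    have h7 := eval_mono qb hx
    omega
  refine ⟨fun A hA => ?_, ?_⟩
  · obtain ⟨Q, h1, h2, h3⟩ := hqb A z
    have h6 := h5 z (by omega)
    refine ⟨Q, by omega, fun q hq => ?_, fun A' hA' => ?_⟩
    · have := h2 q hq
      omega
    · show ¬ M.out A' z = some [true]
      rw [h3 A' hA']
      exact hA
  · rintro A ⟨w, hw, hA⟩
    obtain ⟨Q, h1, h2, h3⟩ := hqb A (pairBits w z)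
    have h6 := h5 (pairBits w z) (by rw [length_pairBits]; omega)
    refine ⟨Q, by omega, fun q hq => ?_, fun A' hA' => ⟨w, hw, ?_⟩⟩
    · have := h2 q hq
      omega
    · rw [h3 A' hA']
      exact hA

theorem ev_poly (E d : ℕ) : ∀ᶠ m : ℕ in atTop, E * (m + 1) ^ d < 2 ^ m := by
  have h1 := tendsto_pow_const_div_const_pow_of_one_lt d (one_lt_two (α := ℝ))
  have h2 : (0 : ℝ) < 1 / (2 * E + 2) := by positivity
  have h3 := (h1.eventually (gt_mem_nhds h2)).and (eventually_ge_atTop 1)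
  have h4 := (tendsto_add_atTop_nat 1).eventually h3
  filter_upwards [h4] with m hm
  obtain ⟨hm, _⟩ := hm
  rw [div_lt_div_iff₀ (by positivity) (by positivity), one_mul] at hm
  have h5 : (((m + 1) ^ d * (2 * E + 2) : ℕ) : ℝ) < ((2 ^ (m + 1) : ℕ) : ℝ) := by
    push_cast at hm ⊢
    exact hm
  have h6 : (m + 1) ^ d * (2 * E + 2) < 2 ^ (m + 1) := by exact_mod_cast h5
  rw [pow_succ] at h6
  have h7 : (m + 1) ^ d * (2 * E + 2) = 2 * (E * (m + 1) ^ d) + 2 * (m + 1) ^ d := by ring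
  omega

/-- the rate of the codes -/
def bt (α : ℕ → ℕ) (s : ℕ) : ℕ := min (α (Nat.log 2 s)) (Nat.log 2 s)

theorem bt_mono {α : ℕ → ℕ} (hα : Monotone α) : Monotone (bt α) := fun _ _ h =>
  min_le_min (hα (Nat.log_mono_right h)) (Nat.log_mono_right h)

theorem bt_pow (α : ℕ → ℕ) (m : ℕ) : bt α (2 ^ m) = min (α m) m := by
  unfold bt
  rw [Nat.log_pow (by norm_num)]

theorem small {α : ℕ → ℕ} (hα : Monotone α) (hα' : Tendsto α atTop atTop) (E d κ : ℕ)
    (hd : d < κ) (n : ℕ) : ∃ m, n ≤ m ∧ ∀ T, T ≤ E * ((m + 1) * 2 ^ m) ^ d →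
      T < 2 ^ (κ * (m + 1)) ∧ ∀ s, 2 ^ m ≤ s → T < s ^ (bt α s + 1) := by
  obtain ⟨m, h1, h2, h3, h4⟩ := (((ev_poly E d).and ((hα'.eventually_ge_atTop d).and
    ((eventually_ge_atTop d).and (eventually_ge_atTop n))))).exists
  refine ⟨m, h4, fun T hT => ?_⟩
  have h5 : T < 2 ^ (m * (d + 1)) := by
    calc T ≤ E * ((m + 1) * 2 ^ m) ^ d := hT
      _ = E * (m + 1) ^ d * (2 ^ m) ^ d := by rw [mul_pow]; ring
      _ < 2 ^ m * (2 ^ m) ^ d := Nat.mul_lt_mul_of_pos_right h1 (by positivity)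
      _ = 2 ^ (m * (d + 1)) := by rw [pow_mul, pow_succ]; ring
  refine ⟨h5.trans_le (Nat.pow_le_pow_right (by norm_num) ?_), fun s hs => ?_⟩
  · calc m * (d + 1) ≤ (m + 1) * κ := Nat.mul_le_mul (by omega) (by omega)
      _ = κ * (m + 1) := by ring
  · have h6 : d ≤ bt α s := by
      have h7 := bt_mono hα hs
      rw [bt_pow] at h7
      exact (le_min h2 h3).trans h7
    have hs1 : 1 ≤ s := Nat.one_le_two_pow.trans hs
    calc T < 2 ^ (m * (d + 1)) := h5
      _ = (2 ^ m) ^ (d + 1) := by rw [pow_mul]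
      _ ≤ s ^ (d + 1) := Nat.pow_le_pow_left hs _
      _ ≤ s ^ (bt α s + 1) := Nat.pow_le_pow_right hs1 (by omega)

end Pool.Agent.TH678.RS
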