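import Pool.Agent.TH678.RS.Defs
import Pool.Agent.TH678.WP.Down

/-! The oracle with the codes -/

set_option autoImplicit false

namespace Pool.Agent.TH678.RS

open Pool.Agent.NPC Pool.Agent.H622R2 Pool.Agent.H620R2.Gauge Pool.Agent.H622R2.Exp Finset
  Pool.Agent.TH678.ETH Pool.Agent.TH678.SETH

/-- the codes that are used -/
def IB (S : ℕ → Polynomial ℕ) (b : ℕ → ℕ) : Type :=
  {p : ℕ × ℕ × List Bool // (S p.1).eval p.2.2.length ^ (b ((S p.1).eval p.2.2.length) + 1) ≤ p.2.1}

/-- the code -/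
def cB (S : ℕ → Polynomial ℕ) (b : ℕ → ℕ) (p : IB S b) : List Bool := cS p.1.1 p.1.2.1 p.1.2.2

theorem cB_inj (S : ℕ → Polynomial ℕ) (b : ℕ → ℕ) : Function.Injective (cB S b) := by
  rintro ⟨⟨e, i, y⟩, h⟩ ⟨⟨e', i', y'⟩, h'⟩ hh
  obtain ⟨h1, h2, h3⟩ := cS_inj hh
  subst h1 h2 h3
  rfl

/-- the data -/
structure Cd (g : ℕ → Alg) (S : ℕ → Polynomial ℕ) (b : ℕ → ℕ) (Φ : Oracle → Oracle) : Prop where
  big : ∀ e n, n + e + 1 ≤ (S e).eval n
  loc : ∀ (e n : ℕ) (A : Oracle) (x : List Bool), x.length ≤ 3 * n + 1 →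
    ∃ Q : Finset (List Bool), Q.card ≤ (S e).eval n ∧ (∀ q ∈ Q, q.length ≤ (S e).eval n) ∧
      ∀ A' : Oracle, (∀ q ∈ Q, A' q = A q) → (g e).out A' x = (g e).out A x
  off : ∀ B y, (∀ p : IB S b, y ≠ cB S b p) → Φ B y = B y
  on : ∀ B (p : IB S b), Φ B (cB S b p) = true ↔ VS g p.1 (Φ B)

theorem exists_cd (g : ℕ → Alg) (b : ℕ → ℕ) :
    ∃ (S : ℕ → Polynomial ℕ) (Φ : Oracle → Oracle), Cd g S b Φ := by
  choose qb hqb using fun e => (g e).out_local
  set S : ℕ → Polynomial ℕ := fun e => (g e).p.comp (3 * Polynomial.X + 1) +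
    (qb e).comp (3 * Polynomial.X + 1) + Polynomial.X + Polynomial.C (e + 1) with hS
  have hSe : ∀ e n, (S e).eval n = (g e).p.eval (3 * n + 1) + (qb e).eval (3 * n + 1) + n +
      (e + 1) := by
    intro e n
    rw [hS]
    simp [Polynomial.eval_comp]
  obtain ⟨Φ, h1, h2⟩ := exists_fix (cB S b) (cB_inj S b) (fun p A => VS g p.1 A) (by
    rintro ⟨⟨e, i, y⟩, h⟩ A A' hA
    have hcut : CC.cut i A = CC.cut i A' := by
      funext z
      unfold CC.cut
      split_ifs with hz
      · apply hA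
        show z.length < (cS e i y).length
        rw [length_cS]
        omega
      · rfl
    show VS g (e, i, y) A ↔ VS g (e, i, y) A'
    unfold VS
    simp only [hcut])
  refine ⟨S, Φ, fun e n => ?_, fun e n A x hx => ?_, h1, h2⟩
  · rw [hSe]; omega
  · obtain ⟨Q, hQ1, hQ2, hQ3⟩ := hqb e A x
    have h3 := eval_mono (g e).p hx
    have h4 := eval_mono (qb e) hx
    rw [hSe]
    exact ⟨Q, by omega, fun q hq => by have := hQ2 q hq; omega, hQ3⟩

variable {g : ℕ → Alg} {S : ℕ → Polynomial ℕ} {b : ℕ → ℕ} {Φ : Oracle → Oracle}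

theorem Cd.le_pow (hc : Cd g S b Φ) (e n : ℕ) :
    (S e).eval n ≤ (S e).eval n ^ (b ((S e).eval n) + 1) := by
  have h1 : 1 ≤ (S e).eval n := le_trans (by omega) (hc.big e n)
  exact Nat.le_self_pow (by omega) _

theorem code_iffB (hc : Cd g S b Φ) (B : Oracle) {e i : ℕ} {y : List Bool}
    {V : List Bool → List Bool} (hM : ∀ z, (g e).out (Φ B) z = some (V z))
    (hi : (S e).eval y.length ^ (b ((S e).eval y.length) + 1) ≤ i) :
    Φ B (cS e i y) = true ↔
      ∃ w : List Bool, w.length ≤ SETH.par y ∧ V (pairBits w y) = [true] := by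
  have h2 : Φ B (cS e i y) = true ↔ ∃ w : List Bool, w.length ≤ SETH.par y ∧
      (g e).out (CC.cut i (Φ B)) (pairBits w y) = some [true] := hc.on B ⟨(e, i, y), hi⟩
  rw [h2]
  refine exists_congr fun w => and_congr_right fun hw => ?_
  have hpy := par_le y
  obtain ⟨Q, _, hQ2, hQ3⟩ := hc.loc e y.length (Φ B) (pairBits w y) (by
    rw [length_pairBits]; omega)
  have hSi : (S e).eval y.length ≤ i := (hc.le_pow e y.length).trans hi
  rw [hQ3 (CC.cut i (Φ B)) fun q hq => by
    unfold CC.cut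
    rw [if_pos ((hQ2 q hq).trans hSi)], hM, Option.some.injEq]

/-- **The codes of length at most `T` depend on the strings of length less than `L` only.** -/
theorem blind (hc : Cd g S b Φ) {L T : ℕ} (hT : ∀ s, L ≤ s → T < s ^ (b s + 1)) {B B' : Oracle}
    (hB : ∀ u : List Bool, u.length < L → B u = B' u) : ∀ (n : ℕ) (q : List Bool),
    q.length ≤ n → q.length ≤ T → ((∃ p : IB S b, q = cB S b p) ∨ q.length < L) →
      Φ B q = Φ B' q := by
  intro n
  induction n using Nat.strong_induction_on with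
  | _ n ih =>
    intro q hq hqT hor
    by_cases hp : ∃ p : IB S b, q = cB S b p
    · obtain ⟨p, rfl⟩ := hp
      obtain ⟨⟨e, i, y⟩, hp1⟩ := p
      simp only at hp1
      have hlen : (cB S b ⟨(e, i, y), hp1⟩).length = i + 1 + 1 + (e + 1 + y.length) :=
        length_cS e i y
      rw [hlen] at hq hqT
      set s := (S e).eval y.length with hs
      have hsi : s ^ (b s + 1) ≤ i := hp1
      have hs0 : s ≤ i := (hc.le_pow e y.length).trans hp1
      have hsL : s < L := by
        by_contra hcon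
        have := hT s (by omega)
        omega
      have hpy := par_le y
      have h1 := hc.on B ⟨(e, i, y), hp1⟩
      have h2 := hc.on B' ⟨(e, i, y), hp1⟩
      rw [Bool.eq_iff_iff, h1, h2]
      show (∃ w : List Bool, w.length ≤ par y ∧
          (g e).out (CC.cut i (Φ B)) (pairBits w y) = some [true]) ↔
          ∃ w : List Bool, w.length ≤ par y ∧
          (g e).out (CC.cut i (Φ B')) (pairBits w y) = some [true]
      refine exists_congr fun w => and_congr_right fun hw => ?_
      obtain ⟨Q, _, hQ2, hQ3⟩ := hc.loc e y.length (CC.cut i (Φ B)) (pairBits w y) (by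
        rw [length_pairBits]; omega)
      rw [hQ3 (CC.cut i (Φ B')) fun q' hq' => ?_]
      have h3 := hQ2 q' hq'
      have h4 : Φ B q' = Φ B' q' := ih s (by omega) q' h3 (by omega) (Or.inr (by omega))
      unfold CC.cut
      rw [h4]
    · push Not at hp
      rcases hor with ⟨p, h⟩ | h
      · exact absurd h (hp p)
      · rw [hc.off B q hp, hc.off B' q hp]
        exact hB q h

theorem phi_loc (hc : Cd g S b Φ) {ℓ : ℕ} {B B' : Oracle}
    (hB : ∀ u : List Bool, u.length ≤ ℓ → B u = B' u) (q : List Bool) (hq : q.length ≤ ℓ) :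
    Φ B q = Φ B' q := by
  refine blind hc (L := ℓ + 1) (T := ℓ) (fun s hs => ?_) (fun u hu => hB u (by omega)) _ q le_rfl
    hq (Or.inr (by omega))
  have : s ≤ s ^ (b s + 1) := Nat.le_self_pow (by omega) _
  omega

theorem cB_head (p : IB S b) : (cB S b p).head? = some true := cS_head _ _ _

theorem off_false (hc : Cd g S b Φ) (B : Oracle) (u : List Bool) :
    Φ B (false :: u) = B (false :: u) := by
  apply hc.off
  intro p h
  have h1 := cB_head p
  rw [← h] at h1
  simp at h1

end Pool.Agent.TH678.RS
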