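import Pool.Agent.TH678.RW.HaltDefs

/-!
# Time `n ^ O(α n)` and the class `M[1]` relative to an oracle
-/

set_option autoImplicit false

namespace Pool.Agent.TH678.RS

open Pool.Agent.NPC Pool.Agent.H620R2.Gauge Pool.Agent.TH678.ETH Pool.Agent.TH678.WP
  Pool.Agent.TH678.RW

/-- The language `L` is decided in time `n ^ O(α n)` relative to `A`: the instance `x`, together
with `(|x| + 2) ^ (C * (α |x| + 1))` ones, is decided in polynomial time relative to `A`. -/
def InTime (α : ℕ → ℕ) (A : Oracle) (L : Set (List Bool)) : Prop :=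
  ∃ (C : ℕ) (V : List Bool → List Bool), IsFP A V ∧ ∀ x : List Bool,
    x ∈ L ↔ V (pairBits (List.replicate ((x.length + 2) ^ (C * (α x.length + 1))) true) x) = [true]

/-- The class `M[1]` relative to `A`, in a wide form: by a transformation `R`, computable in time
`f k * poly |x|` relative to `A`, the instance `(x, k)` becomes an instance of a problem `L` in
`NP` relative to `A`, whose length is only `(h k * log |x|) ^ c`. (In this form the class contains
`p-log-SAT` for `d`-CNF formulas: `n = k * log |x|` variables, and at most `(2 n + 1) ^ d` different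
clauses.) -/
def InM1 (A : Oracle) (Q : Set (List Bool × ℕ)) : Prop :=
  ∃ (π : ℕ → List Bool) (h : ℕ → ℕ) (c : ℕ) (R : List Bool → List Bool) (L : Set (List Bool)),
    Computable π ∧ Computable h ∧ IsFP A R ∧ IsNP A L ∧ ∀ x k,
      (R (pairBits (π k) x)).length ≤ (h k * (Nat.log 2 x.length + 1)) ^ c ∧
      ((x, k) ∈ Q ↔ R (pairBits (π k) x) ∈ L)

/-- The oracles relative to which `NP` is in time `n ^ O(α n)` for all `α` in `F` and
`M[1] = FPT`, but `W[1]` contains a problem, the `k`-step halting problem of nondeterministic Turing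
machines, which is not fixed-parameter tractable in a strong sense. -/
structure Separated (F : Set (ℕ → ℕ)) (A : Oracle) : Prop where
  /-- nondeterministic polynomial time is nearly polynomial time -/
  np : ∀ α ∈ F, ∀ L, IsNP A L → InTime α A L
  /-- the class `M[1]` is `FPT` -/
  m1 : ∀ Q, InM1 A Q → InFPT A Q
  /-- the `k`-step halting problem is not in nonuniform `FPT` -/
  halt : ¬ ParaAny (IsP A) (kHalt A)
  /-- its complement is not in nonuniform `para-NP` -/
  cohalt : ¬ ParaAny (IsNP A) (kHalt A)ᶜ
  /-- for fixed `k` and `c ≤ k - 2`, the question whether the machine `x` can halt within `k` steps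
  is not decided in time `O(|x| ^ c)`, ... -/
  slice : ∀ (k c C : ℕ) (M : Alg), c + 2 ≤ k → ∃ x : List Bool, ¬ ((x, k) ∈ kHalt A ↔
    AccIn M (C * (x.length + 1) ^ c) A
      (pairBits (List.replicate (C * (x.length + 1) ^ c) true) x))
  /-- ... and its negation not even in nondeterministic time `O(|x| ^ c)` -/
  coslice : ∀ (k c C : ℕ) (M : Alg), c + 2 ≤ k → ∃ x : List Bool, ¬ ((x, k) ∉ kHalt A ↔
    ∃ w : List Bool, w.length ≤ C * (x.length + 1) ^ c ∧
      AccIn M (C * (x.length + 1) ^ c) A (pairBits w x))

end Pool.Agent.TH678.RS
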