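import Pool.Agent.TH678.RS.Diag

/-! The upper bounds -/

set_option autoImplicit false

namespace Pool.Agent.TH678.RS

open Pool.Agent.NPC Pool.Agent.H622R2 Pool.Agent.H620R2.Gauge Pool.Agent.H622R2.Exp
  Pool.Agent.TH678.ETH Pool.Agent.TH678.SETH Pool.Agent.TH678.RW Pool.Agent.TH678.WP Filter

variable {g : ℕ → Alg} {S : ℕ → Polynomial ℕ} {α : ℕ → ℕ} {Φ : Oracle → Oracle}

theorem num1 (hα : Monotone α) {γ : ℕ → ℕ} {c₁ : ℕ} (hγ : ∀ n, α n ≤ γ n + c₁) (D : ℕ) :
    ∃ C : ℕ, ∀ n s : ℕ, s ≤ (n + 2) ^ D → s ^ (bt α s + 1) ≤ (n + 2) ^ (C * (γ n + 1)) := by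
  obtain ⟨n₀, hn₀⟩ := eventually_atTop.1 (ev_poly (2 ^ D) D)
  refine ⟨D * (c₁ + Nat.log 2 ((n₀ + 2) ^ D) + 1), fun n s hs => ?_⟩
  set c₀ := Nat.log 2 ((n₀ + 2) ^ D) with hc₀
  have h1 : bt α s ≤ α n + c₀ := by
    rcases Nat.lt_or_ge n n₀ with h | h
    · have h2 : bt α s ≤ Nat.log 2 s := min_le_right _ _
      have h3 : Nat.log 2 s ≤ c₀ :=
        Nat.log_mono_right (hs.trans (Nat.pow_le_pow_left (by omega) _))
      omega
    · have h2 : bt α s ≤ α (Nat.log 2 s) := min_le_left _ _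
      have h3 : (n + 2) ^ D < 2 ^ n := by
        calc (n + 2) ^ D ≤ (2 * (n + 1)) ^ D := Nat.pow_le_pow_left (by omega) _
          _ = 2 ^ D * (n + 1) ^ D := mul_pow _ _ _
          _ < 2 ^ n := hn₀ n h
      have h4 : Nat.log 2 s ≤ n := by
        have := Nat.log_mono_right (b := 2) (hs.trans h3.le)
        rwa [Nat.log_pow (by norm_num)] at this
      have h5 := hα h4
      omega
  have h6 := hγ n
  calc s ^ (bt α s + 1) ≤ ((n + 2) ^ D) ^ (bt α s + 1) := Nat.pow_le_pow_left hs _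
    _ ≤ ((n + 2) ^ D) ^ ((c₁ + c₀ + 1) * (γ n + 1)) := by
        apply Nat.pow_le_pow_right (by positivity)
        nlinarith
    _ = (n + 2) ^ (D * (c₁ + c₀ + 1) * (γ n + 1)) := by
        rw [← pow_mul]
        congr 1
        ring

theorem num2 (K : ℕ) : ∃ E : ℕ, ∀ t : ℕ, K * Nat.log 2 (t + 2) ^ 2 ≤ t + E := by
  obtain ⟨u₀, hu₀⟩ := eventually_atTop.1 (ev_poly (K + 2) 2)
  refine ⟨K * u₀ ^ 2, fun t => ?_⟩
  set u := Nat.log 2 (t + 2) with hu
  rcases Nat.lt_or_ge u u₀ with h | h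
  · have h1 : u ^ 2 ≤ u₀ ^ 2 := Nat.pow_le_pow_left h.le 2
    have := Nat.mul_le_mul_left K h1
    omega
  · have h1 := hu₀ u h
    have h2 : 2 ^ u ≤ t + 2 := Nat.pow_log_le_self 2 (by omega)
    have h3 : K * u ^ 2 + 2 ≤ (K + 2) * (u + 1) ^ 2 := by nlinarith
    omega

/-- the factor -/
def FF (r E a : ℕ) : ℕ := 2 ^ (2 * (r + 1) ^ 2 * ((a + 4) * (a + 4)) + (E + 1))

theorem num3 (α : ℕ → ℕ) (c D : ℕ) : ∃ r E : ℕ, ∀ a n s : ℕ,
    s ≤ ((a * (Nat.log 2 n + 1)) ^ c + 2) ^ D → s ^ (bt α s + 1) ≤ FF r E a * (n + 1) := by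
  set r := (c + 1) * D with hr
  obtain ⟨E, hE⟩ := num2 (2 * (r + 1) ^ 2)
  refine ⟨r, E, fun a n s hs => ?_⟩
  set t := Nat.log 2 n + 1 with ht
  set la := Nat.log 2 (a + 2) with hla
  set lt := Nat.log 2 (t + 2) with hlt
  have h1 : (a * t) ^ c + 2 ≤ ((a + 2) * (t + 2)) ^ (c + 1) := by
    have e1 : (a * t) ^ c ≤ ((a + 2) * (t + 2)) ^ c :=
      Nat.pow_le_pow_left (Nat.mul_le_mul (by omega) (by omega)) c
    have e2 : 1 ≤ ((a + 2) * (t + 2)) ^ c := Nat.one_le_pow _ _ (by positivity)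
    have e3 : 4 ≤ (a + 2) * (t + 2) := Nat.mul_le_mul (show 2 ≤ a + 2 by omega)
      (show 2 ≤ t + 2 by omega)
    rw [pow_succ]
    nlinarith
  have h2 : (a + 2) * (t + 2) ≤ 2 ^ (la + lt + 2) := by
    have e1 : a + 2 < 2 ^ (la + 1) := Nat.lt_pow_succ_log_self (by norm_num) _
    have e2 : t + 2 < 2 ^ (lt + 1) := Nat.lt_pow_succ_log_self (by norm_num) _
    calc (a + 2) * (t + 2) ≤ 2 ^ (la + 1) * 2 ^ (lt + 1) := Nat.mul_le_mul e1.le e2.le
      _ = 2 ^ (la + lt + 2) := by rw [← pow_add]; congr 1; ring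
  have h3 : s ≤ 2 ^ ((la + lt + 2) * r) := by
    calc s ≤ ((a * t) ^ c + 2) ^ D := hs
      _ ≤ (((a + 2) * (t + 2)) ^ (c + 1)) ^ D := Nat.pow_le_pow_left h1 D
      _ = ((a + 2) * (t + 2)) ^ r := by rw [← pow_mul]
      _ ≤ (2 ^ (la + lt + 2)) ^ r := Nat.pow_le_pow_left h2 r
      _ = 2 ^ ((la + lt + 2) * r) := by rw [← pow_mul]
  have h4 : Nat.log 2 s ≤ (la + lt + 2) * r := by
    have := Nat.log_mono_right (b := 2) h3
    rwa [Nat.log_pow (by norm_num)] at this
  have h5 : s ≤ 2 ^ (Nat.log 2 s + 1) := (Nat.lt_pow_succ_log_self (by norm_num) s).le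
  have h6 : s ^ (bt α s + 1) ≤ 2 ^ ((Nat.log 2 s + 1) * (Nat.log 2 s + 1)) := by
    calc s ^ (bt α s + 1) ≤ (2 ^ (Nat.log 2 s + 1)) ^ (bt α s + 1) := Nat.pow_le_pow_left h5 _
      _ ≤ (2 ^ (Nat.log 2 s + 1)) ^ (Nat.log 2 s + 1) :=
          Nat.pow_le_pow_right (by positivity) (Nat.succ_le_succ (min_le_right _ _))
      _ = _ := by rw [← pow_mul]
  have h7 : Nat.log 2 s + 1 ≤ (r + 1) * (la + lt + 2) := by nlinarith
  have h8 : la ≤ a + 2 := Nat.log_le_self 2 _
  have h9 : (Nat.log 2 s + 1) * (Nat.log 2 s + 1) ≤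
      2 * (r + 1) ^ 2 * ((a + 4) * (a + 4)) + 2 * (r + 1) ^ 2 * lt ^ 2 := by
    have e1 := Nat.mul_le_mul h7 h7
    have e2 : (la + lt + 2) * (la + lt + 2) ≤ 2 * ((a + 4) * (a + 4)) + 2 * lt ^ 2 := by
      obtain ⟨x, hx⟩ : ∃ x, a + 4 = la + 2 + x := ⟨a + 4 - (la + 2), by omega⟩
      rw [hx]
      nlinarith [sq_nonneg ((la + 2 + x : ℤ) - lt), two_mul_le_add_sq (la + 2) lt]
    have e3 : (r + 1) * (la + lt + 2) * ((r + 1) * (la + lt + 2)) =
        (r + 1) ^ 2 * ((la + lt + 2) * (la + lt + 2)) := by ring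
    rw [e3] at e1
    refine e1.trans ((Nat.mul_le_mul_left _ e2).trans (le_of_eq ?_))
    ring
  have h10 := hE t
  rw [← hlt] at h10
  have h11 : 2 ^ t ≤ 2 * (n + 1) := by
    rw [ht, pow_succ]
    rcases Nat.eq_zero_or_pos n with h0 | h0
    · rw [h0]
      simp
    · have := Nat.pow_log_le_self 2 (show n ≠ 0 by omega)
      omega
  calc s ^ (bt α s + 1) ≤ 2 ^ ((Nat.log 2 s + 1) * (Nat.log 2 s + 1)) := h6
    _ ≤ 2 ^ (2 * (r + 1) ^ 2 * ((a + 4) * (a + 4)) + E + t) :=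
        Nat.pow_le_pow_right (by norm_num) (by omega)
    _ = 2 ^ (2 * (r + 1) ^ 2 * ((a + 4) * (a + 4)) + E) * 2 ^ t := pow_add _ _ _
    _ ≤ 2 ^ (2 * (r + 1) ^ 2 * ((a + 4) * (a + 4)) + E) * (2 * (n + 1)) :=
        Nat.mul_le_mul_left _ h11
    _ = FF r E a * (n + 1) := by
        unfold FF
        rw [← add_assoc, pow_succ]
        ring

theorem computable_FF (r E : ℕ) : Computable (FF r E) := by
  have h1 : Primrec (fun a : ℕ => 2 * (r + 1) ^ 2 * ((a + 4) * (a + 4)) + (E + 1)) :=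
    Primrec.nat_add.comp
      (Primrec.nat_mul.comp (Primrec.const _)
        (Primrec.nat_mul.comp (Primrec.nat_add.comp Primrec.id (Primrec.const 4))
          (Primrec.nat_add.comp Primrec.id (Primrec.const 4))))
      (Primrec.const _)
  exact computable_pow.comp h1.to_comp

/-- the instance of the search problem -/
def yv (p : Polynomial ℕ) (v : List Bool) : List Bool :=
  pairBits (List.replicate (p.eval v.length) true) v

theorem par_yv (p : Polynomial ℕ) (v : List Bool) : SETH.par (yv p v) = p.eval v.length := by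
  rw [yv, SETH.par, unpair_pairBits, List.length_replicate]

theorem length_yv (p : Polynomial ℕ) (v : List Bool) :
    (yv p v).length = 2 * p.eval v.length + 1 + v.length := by
  rw [yv, length_pairBits, List.length_replicate]

variable {β : Type} [TEnc β]

theorem poly_code (p : Polynomial ℕ) (e : ℕ) {i : β → ℕ} {v : β → List Bool} (hi : UPoly i)
    (hv : Poly v) : Poly (fun z => cS e (i z) (yv p (v z))) := by
  have h1 : UPoly (fun z => i z + 1) := UPoly.add hi (UPoly.const 1)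
  have h0 : Poly (fun z => yv p (v z)) :=
    poly_pairBits (poly_replicate (UPoly.eval (UPoly.length hv) p) true) hv
  have h2 : Poly (fun z => List.replicate (i z + 1) true ++
      false :: (List.replicate e true ++ false :: yv p (v z))) :=
    Poly.append (poly_replicate h1 true) (Poly.cons (NPC.Poly.const false)
      (Poly.append (NPC.Poly.const _) (Poly.cons (NPC.Poly.const false) h0)))
  refine h2.congr fun z => ?_
  unfold cS pr
  rfl

/-- the search problem is coded -/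
theorem code_np (hg : Function.Surjective g) (hc : Cd g S (bt α) Φ) (B : Oracle)
    {L : Set (List Bool)} {V : List Bool → List Bool} {p : Polynomial ℕ} (hV : IsFP (Φ B) V)
    (hL : ∀ x, x ∈ L ↔ ∃ w : List Bool, w.length ≤ p.eval x.length ∧ V (pairBits w x) = [true]) :
    ∃ e D : ℕ, (∀ v : List Bool, (S e).eval (yv p v).length ≤ (v.length + 2) ^ D) ∧
      ∀ (v : List Bool) (i : ℕ), (S e).eval (yv p v).length ^
        (bt α ((S e).eval (yv p v).length) + 1) ≤ i →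
        (v ∈ L ↔ [Φ B (cS e i (yv p v))] = [true]) := by
  have hr : Poly (fun z : List Bool => pairBits (unpair z).1 (unpair (unpair z).2).2) :=
    poly_pairBits (Poly.fst poly_unpair) (Poly.snd (poly_unpair.comp (Poly.snd poly_unpair)))
  obtain ⟨M, hM⟩ := hV.precomp hr
  obtain ⟨e, rfl⟩ := hg M
  obtain ⟨D, _, hD⟩ := YAux.poly_bound ((S e).comp (2 * p + 1 + Polynomial.X))
  refine ⟨e, D, fun v => ?_, fun v i hi => ?_⟩
  · have h := hD v.length
    simp only [Polynomial.eval_comp, Polynomial.eval_add, Polynomial.eval_mul,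
      Polynomial.eval_ofNat, Polynomial.eval_one, Polynomial.eval_X] at h
    rw [length_yv]
    exact h
  · rw [hL v, List.cons.injEq, and_iff_left rfl, code_iffB hc B hM hi, par_yv]
    refine exists_congr fun w => and_congr_right fun _ => ?_
    simp only [yv, unpair_pairBits]

theorem np_time (hα : Monotone α) {γ : ℕ → ℕ} {c₁ : ℕ} (hγ : ∀ n, α n ≤ γ n + c₁)
    (hg : Function.Surjective g) (hc : Cd g S (bt α) Φ)
    (B : Oracle) {L : Set (List Bool)} (hL : IsNP (Φ B) L) : InTime γ (Φ B) L := by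
  obtain ⟨V, p, hV, hL⟩ := hL
  obtain ⟨e, D, h1, h2⟩ := code_np hg hc B hV hL
  obtain ⟨C, hC⟩ := num1 hα hγ D
  refine ⟨C, fun z => [Φ B (cS e (unpair z).1.length (yv p (unpair z).2))],
    isFP_ask' _ (poly_code p e (UPoly.length (Poly.fst poly_unpair)) (Poly.snd poly_unpair)),
    fun x => ?_⟩
  simp only [unpair_pairBits, List.length_replicate]
  exact h2 x _ (hC _ _ (h1 x))

theorem m1_fpt (hg : Function.Surjective g) (hc : Cd g S (bt α) Φ) (B : Oracle)
    {Q : Set (List Bool × ℕ)} (hQ : InM1 (Φ B) Q) : InFPT (Φ B) Q := by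
  obtain ⟨π, h, c, R, L, hπ, hh, hR, ⟨V, p, hV, hL⟩, hQ⟩ := hQ
  obtain ⟨e, D, h1, h2⟩ := code_np hg hc B hV hL
  obtain ⟨r, E, hF⟩ := num3 α c D
  have hin : Poly (fun z : List Bool => pairBits (unpair (unpair z).1).2 (unpair z).2) :=
    poly_pairBits (Poly.snd (poly_unpair.comp (Poly.fst poly_unpair))) (Poly.snd poly_unpair)
  have hq : Poly (fun Z : List Bool => cS e ((unpair (unpair (unpair Z).1).1).1.length *
      ((unpair (unpair Z).1).2.length + 1)) (yv p (unpair Z).2)) := by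
    have e0 : Poly (fun Z : List Bool => unpair (unpair Z).1) :=
      poly_unpair.comp (Poly.fst poly_unpair)
    exact poly_code p e (UPoly.mul (UPoly.length (Poly.fst (poly_unpair.comp (Poly.fst e0))))
      (UPoly.add (UPoly.length (Poly.snd e0)) (UPoly.const 1))) (Poly.snd poly_unpair)
  obtain ⟨F, hF0, hFP⟩ : ∃ F : List Bool → List Bool, (∀ z, F z = [Φ B (cS e
      ((unpair (unpair z).1).1.length * ((unpair z).2.length + 1))
      (yv p (R (pairBits (unpair (unpair z).1).2 (unpair z).2))))]) ∧ IsFP (Φ B) F := by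
    refine ⟨_, fun z => ?_, IsFP.comp (isFP_ask' (Φ B) hq)
      (IsFP.pair (IsFP.of_poly (A := Φ B) Poly.id) (hR.precomp hin))⟩
    simp only [unpair_pairBits]
  refine ⟨fun k => pairBits (List.replicate (FF r E (h k)) true) (π k), {z | F z = [true]}, ?_,
    ⟨_, hFP, fun z => Iff.rfl⟩, ?_⟩
  · exact computable_pairBits.comp
      (computable_replicate.comp ((computable_FF r E).comp hh)) hπ
  · intro x k
    obtain ⟨h3, h4⟩ := hQ x k
    rw [h4, Set.mem_ofPred_eq, hF0]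
    simp only [unpair_pairBits, List.length_replicate]
    refine h2 _ _ (hF _ _ _ ((h1 _).trans (Nat.pow_le_pow_left ?_ D)))
    omega

end Pool.Agent.TH678.RS
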