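import Pool.Agent.TH678.RS.Low
import Pool.Agent.TH678.RS.Up

/-! A relativized separation of `M[1]` and `W[1]` -/

set_option autoImplicit false

namespace Pool.Agent.TH678.RS

open Pool.Agent.NPC Pool.Agent.H622R2 Pool.Agent.H620R2.Gauge Pool.Agent.H622R2.Exp
  Pool.Agent.TH678.ETH Pool.Agent.TH678.SETH Pool.Agent.TH678.RW Pool.Agent.TH678.WP Filter

/-- **A function below countably many functions.** -/
theorem exists_slow {F : Set (ℕ → ℕ)} (hF : F.Countable) (h : ∀ α ∈ F, Tendsto α atTop atTop) :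
    ∃ α : ℕ → ℕ, Monotone α ∧ Tendsto α atTop atTop ∧ ∀ γ ∈ F, ∃ c, ∀ n, α n ≤ γ n + c := by
  classical
  rcases F.eq_empty_or_nonempty with h0 | h0
  · exact ⟨fun n => n, monotone_id, tendsto_id, fun γ hγ => by simp [h0] at hγ⟩
  obtain ⟨f, hf⟩ := hF.exists_eq_range h0
  have hlim : ∀ j, Tendsto (f j) atTop atTop := fun j => h _ (hf ▸ Set.mem_range_self j)
  set P : ℕ → ℕ → Prop := fun n b => ∀ m, n ≤ m → ∀ j < b, b ≤ f j m with hP
  refine ⟨fun n => Nat.findGreatest (P n) n, fun n n' hn => ?_, ?_, fun γ hγ => ?_⟩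
  · exact Nat.findGreatest_mono (fun b hb m hm => hb m (hn.trans hm)) hn
  · rw [tendsto_atTop]
    intro b
    have h1 : ∀ᶠ n in atTop, ∀ j < b, b ≤ f j n := by
      have : ∀ᶠ n in atTop, ∀ j ∈ Finset.range b, b ≤ f j n :=
        (Filter.eventually_all_finset _).2 fun j _ => (hlim j).eventually_ge_atTop b
      filter_upwards [this] with n hn j hj using hn j (Finset.mem_range.2 hj)
    obtain ⟨n₀, hn₀⟩ := eventually_atTop.1 h1
    filter_upwards [eventually_ge_atTop (max n₀ b)] with n hn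
    refine Nat.le_findGreatest (le_trans (le_max_right _ _) hn) fun m hm j hj => ?_
    exact hn₀ m (le_trans (le_max_left _ _) (hn.trans hm)) j hj
  · rw [hf] at hγ
    obtain ⟨j, rfl⟩ := hγ
    refine ⟨j, fun n => ?_⟩
    set b := Nat.findGreatest (P n) n with hb
    show b ≤ f j n + j
    rcases Nat.eq_zero_or_pos b with h1 | h1
    · omega
    · have h2 : P n b := Nat.findGreatest_of_ne_zero (P := P n) rfl (by omega)
      rcases Nat.lt_or_ge j b with h3 | h3
      · have := h2 n le_rfl j h3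
        omega
      · omega

theorem main {F : Set (ℕ → ℕ)} (hF : F.Countable) (h : ∀ α ∈ F, Tendsto α atTop atTop) :
    ∃ A : Oracle, Separated F A := by
  obtain ⟨α, hα, hα', hle⟩ := exists_slow hF h
  obtain ⟨g, hg⟩ := exists_alg
  obtain ⟨S, Φ, hc⟩ := exists_cd g (bt α)
  obtain ⟨B, hB⟩ := low hα hα' hc
  refine ⟨Φ B, fun γ hγ L hL => ?_, fun Q hQ => m1_fpt hg hc B hQ, hB.p, hB.np, hB.det, hB.ndet⟩
  obtain ⟨c, hc'⟩ := hle γ hγ
  exact np_time hα hc' hg hc B hL

end Pool.Agent.TH678.RS
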