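import Pool.Agent.TH678.RS.Diag

/-! The lower bounds -/

set_option autoImplicit false

namespace Pool.Agent.TH678.RS

open Pool.Agent.NPC Pool.Agent.H622R2 Pool.Agent.H620R2.Gauge Pool.Agent.H622R2.Exp
  Pool.Agent.TH678.ETH Pool.Agent.TH678.SETH Pool.Agent.TH678.RW Pool.Agent.TH678.WP Filter

variable {g : ℕ → Alg} {S : ℕ → Polynomial ℕ} {α : ℕ → ℕ} {Φ : Oracle → Oracle}

/-- the exponent -/
noncomputable def dd (M : Alg) (p : Polynomial ℕ) : ℕ := (fw_out M p).choose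

theorem dd_spec (M : Alg) (p : Polynomial ℕ) (z : List Bool) :
    Fw ((z.length + 2) ^ dd M p) (fun A => ¬ M.out A z = some [true]) ∧
    Fw ((z.length + 2) ^ dd M p) (fun A => ∃ w : List Bool, w.length ≤ p.eval z.length ∧
      M.out A (pairBits w z) = some [true]) := (fw_out M p).choose_spec z

/-- the time bound -/
def tm (C c : ℕ) (x : List Bool) : ℕ := C * (x.length + 1) ^ c

theorem one_le_mm (m : ℕ) : 1 ≤ (m + 1) * 2 ^ m := Nat.mul_pos (by omega) (by positivity)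

theorem tm_le (C c m κ : ℕ) : tm C c (XX m κ) ≤
    (C * (120 * (κ + 2) ^ 2 + 1) ^ c) * ((m + 1) * 2 ^ m) ^ c := by
  unfold tm
  rw [mul_assoc, ← mul_pow]
  refine Nat.mul_le_mul_left _ (Nat.pow_le_pow_left ?_ c)
  have h1 := length_XX m κ
  have h2 := one_le_mm m
  nlinarith

theorem pb_le (σ : List Bool) (d m κ : ℕ) : ((pairBits σ (XX m κ)).length + 2) ^ d ≤
    (2 * σ.length + 3 + 120 * (κ + 2) ^ 2) ^ d * ((m + 1) * 2 ^ m) ^ d := by
  rw [← mul_pow]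
  refine Nat.pow_le_pow_left ?_ d
  have h1 := length_XX m κ
  have h2 := one_le_mm m
  rw [length_pairBits, add_mul]
  have h3 : 2 * σ.length + 3 ≤ (2 * σ.length + 3) * ((m + 1) * 2 ^ m) :=
    Nat.le_mul_of_pos_right _ (by omega)
  omega

/-- the requirements for the slices -/
abbrev J₁ : Type := Bool × Alg × ℕ × ℕ × ℕ

/-- the requirements for the classes -/
abbrev J₂ : Type := Bool × Alg × Polynomial ℕ × List Bool × ℕ

/-- the parameter -/
noncomputable def kap : J₁ ⊕ J₂ → ℕ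
  | Sum.inl j => j.2.2.2.1 + 1 + j.2.2.2.2
  | Sum.inr j => dd j.2.1 j.2.2.1 + 1 + j.2.2.2.2

/-- the claim that nothing is hidden -/
noncomputable def No : J₁ ⊕ J₂ → ℕ → Oracle → Prop
  | Sum.inl (true, M, C, c, r), m, A => ∃ w : List Bool,
      w.length ≤ tm C c (XX m (c + 1 + r)) ∧
      AccIn M (tm C c (XX m (c + 1 + r))) A (pairBits w (XX m (c + 1 + r)))
  | Sum.inl (false, M, C, c, r), m, A => ¬ AccIn M (tm C c (XX m (c + 1 + r))) A
      (pairBits (List.replicate (tm C c (XX m (c + 1 + r))) true) (XX m (c + 1 + r)))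
  | Sum.inr (true, M, p, σ, r), m, A => ∃ w : List Bool,
      w.length ≤ p.eval (pairBits σ (XX m (dd M p + 1 + r))).length ∧
      M.out A (pairBits w (pairBits σ (XX m (dd M p + 1 + r)))) = some [true]
  | Sum.inr (false, M, p, σ, r), m, A =>
      ¬ M.out A (pairBits σ (XX m (dd M p + 1 + r))) = some [true]

/-- the number of questions -/
noncomputable def TT : J₁ ⊕ J₂ → ℕ → ℕ
  | Sum.inl (_, _, C, c, r), m => tm C c (XX m (c + 1 + r))
  | Sum.inr (_, M, p, σ, r), m => ((pairBits σ (XX m (dd M p + 1 + r))).length + 2) ^ dd M p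

theorem fw_all (j : J₁ ⊕ J₂) (m : ℕ) : Fw (TT j m) (No j m) := by
  rcases j with ⟨β, M, C, c, r⟩ | ⟨β, M, p, σ, r⟩
  · cases β with
    | true => exact fw_nacc M _ _
    | false => exact fw_acc M _ _
  · cases β with
    | true => exact (dd_spec M p _).2
    | false => exact (dd_spec M p _).1

theorem ev_all (hα : Monotone α) (hα' : Tendsto α atTop atTop) (j : J₁ ⊕ J₂) (n : ℕ) :
    ∃ m, n ≤ m ∧ TT j m < 2 ^ (kap j * (m + 1)) ∧
      ∀ s, 2 ^ m ≤ s → TT j m < s ^ (bt α s + 1) := by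
  rcases j with ⟨β, M, C, c, r⟩ | ⟨β, M, p, σ, r⟩
  · obtain ⟨m, h1, h2⟩ := small hα hα' (C * (120 * (c + 1 + r + 2) ^ 2 + 1) ^ c) c
      (c + 1 + r) (by omega) n
    exact ⟨m, h1, h2 _ (tm_le C c m (c + 1 + r))⟩
  · obtain ⟨m, h1, h2⟩ := small hα hα'
      ((2 * σ.length + 3 + 120 * (dd M p + 1 + r + 2) ^ 2) ^ dd M p) (dd M p)
      (dd M p + 1 + r) (by omega) n
    exact ⟨m, h1, h2 _ (pb_le σ _ m _)⟩

/-- all lower bounds -/
structure LowA (A : Oracle) : Prop where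
  p : ¬ ParaAny (IsP A) (kHalt A)
  np : ¬ ParaAny (IsNP A) (kHalt A)ᶜ
  det : ∀ (k c C : ℕ) (M : Alg), c + 2 ≤ k → ∃ x : List Bool, ¬ ((x, k) ∈ kHalt A ↔
    AccIn M (C * (x.length + 1) ^ c) A
      (pairBits (List.replicate (C * (x.length + 1) ^ c) true) x))
  ndet : ∀ (k c C : ℕ) (M : Alg), c + 2 ≤ k → ∃ x : List Bool, ¬ ((x, k) ∉ kHalt A ↔
    ∃ w : List Bool, w.length ≤ C * (x.length + 1) ^ c ∧
      AccIn M (C * (x.length + 1) ^ c) A (pairBits w x))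

theorem low (hα : Monotone α) (hα' : Tendsto α atTop atTop) (hc : Cd g S (bt α) Φ) :
    ∃ B : Oracle, LowA (Φ B) := by
  have hcn := CC.poly_countable
  obtain ⟨B, hB⟩ := exists_generic hc kap No TT fw_all (ev_all hα hα')
  refine ⟨B, ?_, ?_, ?_, ?_⟩
  · rintro ⟨π, L, ⟨V, ⟨M, hM⟩, hL⟩, hQ⟩
    obtain ⟨m, hm⟩ := hB (Sum.inr (false, M, 0, π (dd M 0 + 1 + 0 + 1), 0))
    apply hm
    show ¬ M.out (Φ B) (pairBits (π (dd M 0 + 1 + 0 + 1)) (XX m (dd M 0 + 1 + 0))) =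
      some [true] ↔ ¬ HitP (Φ B) m (dd M 0 + 1 + 0)
    rw [← kHalt_iff (Φ B) (m := m) (κ := dd M 0 + 1 + 0) (by omega), hQ, hL, hM,
      Option.some.injEq]
  · rintro ⟨π, L, ⟨V, p, ⟨M, hM⟩, hL⟩, hQ⟩
    obtain ⟨m, hm⟩ := hB (Sum.inr (true, M, p, π (dd M p + 1 + 0 + 1), 0))
    apply hm
    show (∃ w : List Bool, w.length ≤ p.eval (pairBits (π (dd M p + 1 + 0 + 1))
        (XX m (dd M p + 1 + 0))).length ∧
      M.out (Φ B) (pairBits w (pairBits (π (dd M p + 1 + 0 + 1)) (XX m (dd M p + 1 + 0)))) =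
        some [true]) ↔ ¬ HitP (Φ B) m (dd M p + 1 + 0)
    have h1 : ¬ HitP (Φ B) m (dd M p + 1 + 0) ↔
        (XX m (dd M p + 1 + 0), dd M p + 1 + 0 + 1) ∈ (kHalt (Φ B))ᶜ := by
      rw [← kHalt_iff (Φ B) (m := m) (κ := dd M p + 1 + 0) (by omega)]
      exact Iff.rfl
    rw [h1, hQ, hL]
    refine exists_congr fun w => and_congr_right fun _ => ?_
    rw [hM, Option.some.injEq]
  · intro k c C M hk
    obtain ⟨r, rfl⟩ := Nat.exists_eq_add_of_le hk
    obtain ⟨m, hm⟩ := hB (Sum.inl (false, M, C, c, r))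
    refine ⟨XX m (c + 1 + r), fun h => hm ?_⟩
    rw [show c + 2 + r = c + 1 + r + 1 by ring,
      kHalt_iff (Φ B) (m := m) (κ := c + 1 + r) (by omega)] at h
    exact not_congr h.symm
  · intro k c C M hk
    obtain ⟨r, rfl⟩ := Nat.exists_eq_add_of_le hk
    obtain ⟨m, hm⟩ := hB (Sum.inl (true, M, C, c, r))
    refine ⟨XX m (c + 1 + r), fun h => hm ?_⟩
    rw [show c + 2 + r = c + 1 + r + 1 by ring,
      kHalt_iff (Φ B) (m := m) (κ := c + 1 + r) (by omega)] at h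
    exact h.symm

end Pool.Agent.TH678.RS
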